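import Mathlib

/-!
# Lyndon lengths and left normed commutators (helper149, MP_0a5b83_al)
-/

set_option autoImplicit false

open scoped commutatorElement

namespace Pool.Agent.TH149.NR

/-- an integer valued Lyndon length without inversions: the displacement of a vertex of a tree
under a vertex transitive action which preserves an orientation -/
structure Lyn (G : Type*) [Group G] where
  L : G → ℕ
  one : L 1 = 0
  inv : ∀ g, L g⁻¹ = L g
  hyp : ∀ u v w z : G, L (u⁻¹ * v) + L (w⁻¹ * z) ≤
      max (L (u⁻¹ * w) + L (v⁻¹ * z)) (L (u⁻¹ * z) + L (v⁻¹ * w))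
  split : ∀ g k, k ≤ L g → ∃ h, L h = k ∧ L (h⁻¹ * g) + k = L g
  par : ∀ g h, Even (L (g * h) + L g + L h)
  noinv : ∀ g, L g = 1 → L (g * g) ≠ 0

/-- left normed commutator `[a 0, a 1, …, a n]` -/
def lnc {G : Type*} [Group G] (a : ℕ → G) : ℕ → G
  | 0 => a 0
  | n + 1 => ⁅lnc a n, a (n + 1)⁆

end Pool.Agent.TH149.NR
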